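import Pool.Agent.W996.MW.Stm

open scoped ComplexOrder Matrix

namespace Pool.Agent.W21.MW

open Pool.Agent.W996.MW

/-- code words of `x` are families of nonempty rows -/
noncomputable def codesEquiv {κ : Type*} (l : ℕ) (x : κ → Bool) :
    {y : κ × Bool × Fin l → Bool // Codes x y} ≃
      (κ → {r : Fin l → Bool // ¬ r = fun _ => false}) where
  toFun y := fun i => ⟨fun t => y.1 (i, x i, t), by
    intro h
    obtain ⟨t, ht⟩ := y.2.2 i
    have h2 : y.1 (i, x i, t) = false := congrFun h t
    rw [h2] at ht
    exact Bool.false_ne_true ht⟩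
  invFun r := ⟨fun p => if p.2.1 = x p.1 then (r p.1).1 p.2.2 else false, by
    refine ⟨fun i t => ?_, fun i => ?_⟩
    · simp
    · by_contra hc
      push Not at hc
      apply (r i).2
      funext t
      have := hc t
      simpa using this⟩
  left_inv := by
    rintro ⟨y, hy⟩
    apply Subtype.ext
    funext ⟨i, b, t⟩
    simp only
    by_cases hb : b = x i
    · rw [if_pos hb, hb]
    · rw [if_neg hb]
      have : b = !x i := by
        cases b <;> cases hx : x i <;> simp_all
      rw [this]
      exact (hy.1 i t).symm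
  right_inv := by
    intro r
    funext i
    apply Subtype.ext
    funext t
    simp

open Classical in
theorem card_codes {κ : Type*} [Fintype κ] [DecidableEq κ] (l : ℕ) (x : κ → Bool) :
    (Finset.univ.filter (Codes x) : Finset (κ × Bool × Fin l → Bool)).card =
      (2 ^ l - 1) ^ Fintype.card κ := by
  rw [← Fintype.card_subtype, Fintype.card_congr (codesEquiv l x), Fintype.card_fun,
    Fintype.card_subtype_compl, Fintype.card_subtype_eq]
  simp

theorem codes_inj {κ : Type*} {l : ℕ} {x x' : κ → Bool} {y : κ × Bool × Fin l → Bool}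
    (h : Codes x y) (h' : Codes x' y) : x = x' := by
  funext i
  by_contra hne
  obtain ⟨t, ht⟩ := h.2 i
  have h1 := h'.1 i t
  have : (!x' i) = x i := by
    cases hx : x i <;> cases hx' : x' i <;> simp_all
  rw [this, ht] at h1
  exact Bool.noConfusion h1

theorem S_ISO_proof : S_ISO := by
  classical
  intro κ _ _ l hl
  ext x x'
  rw [Matrix.mul_apply]
  have hR : (0 : ℝ) < ((2 : ℝ) ^ l - 1) ^ Fintype.card κ := by
    apply pow_pos
    have : (1 : ℝ) < 2 ^ l := one_lt_pow₀ (by norm_num) (by omega)
    linarith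
  by_cases hxx : x = x'
  · subst hxx
    rw [Matrix.one_apply_eq]
    have hterm : ∀ y : κ × Bool × Fin l → Bool,
        (enc l : Matrix (κ × Bool × Fin l → Bool) (κ → Bool) ℂ)ᴴ x y *
          (enc l : Matrix (κ × Bool × Fin l → Bool) (κ → Bool) ℂ) y x =
        if Codes x y then (((((2 : ℝ) ^ l - 1) ^ Fintype.card κ)⁻¹ : ℝ) : ℂ) else 0 := by
      intro y
      rw [Matrix.conjTranspose_apply]
      unfold enc
      by_cases hc : Codes x y
      · rw [if_pos hc, if_pos hc]
        rw [Complex.star_def, Complex.conj_ofReal, ← Complex.ofReal_mul, ← mul_inv,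
          Real.mul_self_sqrt hR.le]
      · rw [if_neg hc, if_neg hc]; simp
    rw [Finset.sum_congr rfl (fun y _ => hterm y), ← Finset.sum_filter, Finset.sum_const,
      card_codes, nsmul_eq_mul]
    have hc2 : (((2 ^ l - 1) ^ Fintype.card κ : ℕ) : ℂ) =
        ((((2 : ℝ) ^ l - 1) ^ Fintype.card κ : ℝ) : ℂ) := by
      have h1 : (1 : ℕ) ≤ 2 ^ l := Nat.one_le_two_pow
      push_cast [Nat.cast_sub h1]
      rfl
    rw [hc2, ← Complex.ofReal_mul, mul_inv_cancel₀ hR.ne', Complex.ofReal_one]
  · rw [Matrix.one_apply_ne hxx]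
    apply Finset.sum_eq_zero
    intro y _
    rw [Matrix.conjTranspose_apply]
    unfold enc
    by_cases hc : Codes x y
    · have hc' : ¬ Codes x' y := fun h' => hxx (codes_inj hc h')
      rw [if_neg hc', mul_zero]
    · rw [if_neg hc, star_zero, zero_mul]

end Pool.Agent.W21.MW
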